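import Mathlib
import Pool.Agent.H3.Ex.Tow
import Pool.Agent.H3.Ex.Fix
import Pool.Agent.H3.Wd.Lem

set_option autoImplicit false
set_option linter.unusedSectionVars false

/-!
# MP_576eff_lc, PIECES, world side: definitions (helper88)

`HasPW Bs As w k Kx M`: there is a pseudo-evaluation with allowed degree `M` in which every formula in `Bs`
has a coherent value of degree `w`, and the formulas in `As` are pseudo-true (and their subformulas
have honest values of degree `Kx`).
`HasPL`: the same for long formulas: every formula in `Bs` has a coherent value which is a short formula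
over functions of degree `w`.
-/

namespace Pool.Agent.H88.PX

open Finset Pool.Agent.H3.Frg Pool.Agent.H3.Frg2 Pool.Agent.H3.Frg3 Pool.Agent.H3.Ex

/-- there is a pseudo-evaluation for the short formulas `Bs` and the axioms `As` -/
def HasPW {V : Type} (Bs As : Set (Fm V)) (w k Kx M : ℕ) : Prop :=
  ∃ (X : Type) (P : PA X) (F : V → X → Bool), M ≤ P.M ∧
    (∀ B ∈ Bs, ∃ g : X → Bool, P.Dg (rl g) w ∧ CE P F k B g) ∧
    ∀ A ∈ As, (∀ B ∈ A.subs, P.Dg (rl (hv F B)) Kx) ∧ P.Z (fun z => rl (hv F A) z - 1)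

/-- there is a pseudo-evaluation for the formulas `Bs` (of length at most `h k / (18 w)`, roughly)
and the axioms `As` -/
def HasPL {V : Type} (Bs As : Set (Fm V)) (h w k Kx M : ℕ) : Prop :=
  ∃ (X : Type) (P : PA X) (F : V → X → Bool), M ≤ P.M ∧
    (∀ B ∈ Bs, ∃ Ah : Fm (X → Bool), Ah.all (fun g => P.Dg (rl g) w) ∧ CE P F k B (vl Ah) ∧
      h * Ah.len ≤ h + 18 * B.len) ∧
    ∀ A ∈ As, (∀ B ∈ A.subs, P.Dg (rl (hv F B)) Kx) ∧ P.Z (fun z => rl (hv F A) z - 1)

/-- the passive property of the tower: there is no pseudo-evaluation -/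
def PrP (w k Kx M : ℕ) (V : Type) (_v0 : V) (Bs As : List (Fm V)) : Prop :=
  ¬ HasPW {B | B ∈ Bs} {A | A ∈ As} w k Kx M

end Pool.Agent.H88.PX
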