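import Mathlib
import Pool.Agent.H88.PX.Defs

set_option autoImplicit false
set_option linter.unusedSectionVars false

/-!
# The tower of graphs over the gadget graph, existence of pseudo-evaluations (copy of H3/Wd/Tow)
-/

namespace Pool.Agent.H88.PX

open Finset Pool.Agent.H3.Frg Pool.Agent.H3.Frg2 Pool.Agent.H3.Frg3 Pool.Agent.H3.Ac
  Pool.Agent.H3.Ex

/-- the base: the bottom level is a pseudo-evaluation -/
theorem levT_baseP {E Wv : Type} [Fintype E] [DecidableEq E] [Fintype Wv] [DecidableEq Wv]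
    {src tgt : E → Wv} (fam : PFam src tgt) {h k Kx w s cnt : ℕ} (hsh : s ≤ 4 * h) :
    LevT fam (PrP w k Kx fam.M) 0 h k Kx w s cnt := by
  intro V v0 F ε hε _ Bs hs _ hrep As hAs hPr
  refine hPr ⟨E → Bool, fam.P ε hε, F, (fam.hM ε hε).ge, fun B hB => ?_, fun A hA => ?_⟩
  · obtain ⟨g, h1, h2⟩ := hrep B (by
      show B ∈ (deep v0 0 Bs).flatMap (allInst v0)
      exact List.mem_flatMap.mpr ⟨B, hB, mem_allInst_self v0 B⟩) ((hs B hB).trans hsh)
    exact ⟨g, (fam.dg _ _ _ _).mpr (dg_of_TD h1), h2⟩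
  · obtain ⟨h1, h2⟩ := hAs A hA
    exact ⟨fun B hB => (fam.dg _ _ _ _).mpr (h1 B hB), h2⟩

theorem towerP {J m n k Dm : ℕ} (hm : Even m) (hJD : dgf (J + 1) ≤ Dm) (hn1 : 1000 ≤ n)
    (hnm : n ≤ (m + 1) ^ 2) (j : ℕ) : j ≤ J →
    ∃ (E Wv : Type) (_ : Fintype E) (_ : DecidableEq E) (_ : Fintype Wv) (_ : DecidableEq Wv)
      (src tgt : E → Wv), LG src tgt (dgf (j + 1)) 1000 1024 ∧
      Fintype.card Wv = (m + 1) ^ 2 * ((k + 1) * 2 ^ k) ^ j ∧
      Fintype.card E ≤ dgf (j + 1) * Fintype.card Wv ∧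
      ∀ (t w X kt Kt Mt K s dd ℓ cnt lam κ L1 : ℕ) (u0 u1 η : ℝ),
      Nx J m n k t w X Dm kt Kt Mt K s dd ℓ cnt lam κ L1 u0 u1 η →
      ∃ fam : PFam src tgt, fam.M = Mt * Dm ^ (J - j) ∧ fam.K = K ∧
      LevT fam (PrP w (kt * Dm ^ J) (Kt * Dm ^ J) (Mt * Dm ^ J)) j (4 * X ^ (J - j))
        (kt * Dm ^ (J - j)) (Kt * Dm ^ (J - j)) w s cnt := by
  have hDm : 80 ≤ Dm := (one_le_dgf (J + 1)).trans hJD
  have hDp : ∀ i : ℕ, 1 ≤ Dm ^ i := fun i => Nat.one_le_pow _ _ (by omega)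
  have hle : ∀ a i : ℕ, a ≤ a * Dm ^ i := fun a i => Nat.le_mul_of_pos_right _ (hDp i)
  induction j with
  | zero =>
    intro _
    obtain ⟨R, iR, iDR, rsrc, rtgt, hG, hE⟩ := exists_gad (hn1.trans hnm)
    have hcardW : Fintype.card (GW m) = (m + 1) ^ 2 := by
      rw [Fintype.card_prod, Fintype.card_fin, sq]
    refine ⟨GE m ⊕ R, GW m, inferInstance, inferInstance, inferInstance, inferInstance,
      Sum.elim (gsrc m) rsrc, Sum.elim (gtgt m) rtgt, hG, ?_, ?_, ?_⟩
    · rw [hcardW]; simp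
    · rw [hcardW]; exact hE
    · intro t w X kt Kt Mt K s dd ℓ cnt lam κ L1 u0 u1 η hN
      have hx : Expd (Sum.elim (gsrc m) rsrc) (Sum.elim (gtgt m) rtgt) (2 * (Mt * Dm ^ J)) :=
        expd_of_ch hG.cheeger (by rw [hcardW]; exact lt_of_lt_of_le hN.n2 hnm)
          (by rw [hcardW]; omega)
      have hKbot : ∀ O : Finset (GW m), O.card ≤ K →
          Mt * Dm ^ J + (bd (Sum.elim (gsrc m) rsrc) (Sum.elim (gtgt m) rtgt) O).card
            ≤ 2 * (Mt * Dm ^ J) := by
        intro O hO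
        have h1 : _ ≤ dgf 1 * O.card := card_bd_le3 hG.deg O
        have h2 := hN.n4
        have h3 : dgf 1 * O.card ≤ Dm * K :=
          Nat.mul_le_mul ((dgf_mono (by omega)).trans hJD) hO
        omega
      refine ⟨PFam.bottom (2 * (Mt * Dm ^ J)) (Mt * Dm ^ J) K hx le_rfl
        (by rw [hcardW]; exact hN.n3.trans hnm) hKbot, rfl, rfl, ?_⟩
      exact levT_baseP _ (hN.sx.trans (le_of_eq (by rw [Nat.sub_zero]; ring)))
  | succ j ih =>
    intro hj
    obtain ⟨E', Wv', iE', iDE', iW', iDW', src', tgt', hG, hcW, hcE, hlev⟩ :=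
      ih (by omega)
    have hD1 : 1 ≤ dgf (j + 1) := le_trans (by norm_num) (one_le_dgf (j + 1))
    have hDjDm : dgf (j + 1) ≤ Dm := (dgf_mono (by omega)).trans hJD
    have hDj2 : dgf (j + 1 + 1) ≤ Dm := (dgf_mono (by omega)).trans hJD
    have hDm1 : 1 ≤ Dm := by omega
    have hdegm : ∀ w, (bd src' tgt' {w}).card ≤ Dm := fun w => (hG.deg w).trans hDjDm
    have hkk : 1 ≤ (k + 1) * 2 ^ k := Nat.mul_pos (by omega) (by positivity)
    have hnW : n ≤ Fintype.card Wv' := by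
      rw [hcW]; exact hnm.trans (Nat.le_mul_of_pos_right _ (Nat.pow_pos hkk))
    have hWN : Fintype.card Wv' ≤ (m + 1) ^ 2 * ((k + 1) * 2 ^ k) ^ J := by
      rw [hcW]
      exact Nat.mul_le_mul_left _ (Nat.pow_le_pow_right hkk (by omega))
    have hEN : Fintype.card E' ≤ Dm * ((m + 1) ^ 2 * ((k + 1) * 2 ^ k) ^ J) :=
      hcE.trans (Nat.mul_le_mul hDjDm hWN)
    have hcNV : Fintype.card (NV Wv' k) = Fintype.card Wv' * ((k + 1) * 2 ^ k) := card_NV
    have hnNV : n ≤ Fintype.card (NV Wv' k) := by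
      rw [hcNV]; exact hnW.trans (Nat.le_mul_of_pos_right _ hkk)
    obtain ⟨R, iR, iDR, rsrc, rtgt, r1, r2, r3, r4, r5⟩ :=
      exists_rgraph (dgf (j + 1) + 4) (NV Wv' k) (by omega)
    have hLG := net_LG hG.loopless hG.deg r1 r2 r3 r4
    have hdeq : dgf (j + 1) + 4 + (2 * (dgf (j + 1) + 4) + 280) = dgf (j + 1 + 1) := by
      show _ = 3 * dgf (j + 1) + 292
      ring
    rw [hdeq] at hLG
    have hst := net_stg (k := k) hDm1 hG.loopless hdegm rsrc rtgt
    have hneW : Nonempty Wv' := Fintype.card_pos_iff.mp (by omega)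
    have hneC : Nonempty (Ch E' Wv' k) := ⟨(fun _ _ => false, fun _ _ => false)⟩
    have hconn : Pool.Agent.H3.Frg3.Con (nsrc src' rsrc) (ntgt tgt' rtgt) := con_of_cheeger hLG.cheeger
    refine ⟨NE E' Wv' k R, NV Wv' k, inferInstance, inferInstance, inferInstance, inferInstance,
      nsrc src' rsrc, ntgt tgt' rtgt, hLG, ?_, ?_, ?_⟩
    · rw [hcNV, hcW, pow_succ]; ring
    · rw [card_NE]
      have h1 : Fintype.card E' * 2 ^ k ≤ dgf (j + 1) * (Fintype.card Wv' * ((k + 1) * 2 ^ k)) := by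
        calc Fintype.card E' * 2 ^ k ≤ dgf (j + 1) * Fintype.card Wv' * 2 ^ k :=
              Nat.mul_le_mul_right _ hcE
          _ = dgf (j + 1) * (Fintype.card Wv' * (1 * 2 ^ k)) := by ring
          _ ≤ _ := Nat.mul_le_mul_left _ (Nat.mul_le_mul_left _ (Nat.mul_le_mul_right _
              (by omega)))
      have h2 : Fintype.card Wv' * (k * (2 ^ k * 2))
          ≤ 2 * (Fintype.card Wv' * ((k + 1) * 2 ^ k)) := by
        calc Fintype.card Wv' * (k * (2 ^ k * 2)) = 2 * (Fintype.card Wv' * (k * 2 ^ k)) := by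
              ring
          _ ≤ _ := Nat.mul_le_mul_left _ (Nat.mul_le_mul_left _ (Nat.mul_le_mul_right _
              (by omega)))
      rw [hcNV] at r5 ⊢
      have h3 : dgf (j + 1 + 1) * (Fintype.card Wv' * ((k + 1) * 2 ^ k))
          = dgf (j + 1) * (Fintype.card Wv' * ((k + 1) * 2 ^ k))
            + 2 * (Fintype.card Wv' * ((k + 1) * 2 ^ k))
            + (dgf (j + 1) + 4 + 140) * (Fintype.card Wv' * ((k + 1) * 2 ^ k))
            + (dgf (j + 1) + 146) * (Fintype.card Wv' * ((k + 1) * 2 ^ k)) := by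
        show (3 * dgf (j + 1) + 292) * _ = _
        ring
      rw [h3]
      omega
    · intro t w X kt Kt Mt K s dd ℓ cnt lam κ L1 u0 u1 η hN
      have hX : ∀ i : ℕ, 4 ≤ 4 * X ^ i := fun i =>
        Nat.le_mul_of_pos_right _ (Nat.pow_pos hN.x1)
      obtain ⟨fam', hfM, hfK, hlev⟩ := hlev t w X kt Kt Mt K s dd ℓ cnt lam κ L1 u0 u1 η hN
      have hsub : J - j = (J - (j + 1)) + 1 := by omega
      set i := J - (j + 1) with hi
      rw [hsub] at hfM hlev
      have hDM : Dm * (Mt * Dm ^ i) ≤ fam'.M := by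
        rw [hfM]
        exact le_of_eq (by rw [pow_succ]; ring)
      have hwkt : w ≤ kt := by
        refine le_trans ?_ hN.k1
        exact Nat.le_mul_of_pos_right _ (by omega)
      have hKh : (1:ℝ) ≤ (Kh Dm 1000 : ℝ) := by
        have : 1 ≤ Kh Dm 1000 := by
          unfold Kh
          exact Nat.mul_pos (by norm_num) (by positivity)
        exact_mod_cast this
      have hu1 : 1 ≤ u1 := by
        refine le_trans ?_ hN.a1
        have := one_le_pow₀ hKh (n := 1 + Dm)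
        linarith
      have hu0 : 1 ≤ u0 := (one_le_pow₀ hu1).trans hN.a0
      have hDmR : (0:ℝ) < Dm := by exact_mod_cast hDm1
      have hη0 : 0 < η := by
        refine lt_of_lt_of_le ?_ hN.e1
        positivity
      refine ⟨fam'.up hst hconn (Mt * Dm ^ i) hDM, rfl, hfK, ?_⟩
      have hfM' : Mt ≤ fam'.M := by rw [hfM]; exact hle _ _
      refine levT_step (c0 := 1000) (H := 1 + 72 * X) (t := t) fam' hst
        (gx_of_lg hLG hDj2 hDm1) (gx_of_lg hG hDjDm hDm1) hconn hη0 ?_ hN.e2 hN.e3 (by omega)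
        hN.t1 (lt_of_lt_of_le hN.g1 hnW) hN.la ?_ hN.a1 hN.a0 ?_ (lt_of_lt_of_le hN.bu hnW)
        hN.dp (by rw [hfK]; exact hN.kk) (hN.mm.trans hfM') (lt_of_lt_of_le hN.qq hnW)
        hlev (Mt * Dm ^ i) hDM ?_ ?_ (hX i) (hwkt.trans (hle _ _)) (hwkt.trans (hle _ _)) ?_ ?_
        ?_ ?_
      · intro v u S e
        have h1 := net_lip (R := R) hDm1 hG.loopless hdegm hu0 v u S e
        have h3 : (1 + Dm * u0 ^ (2 * Dm) / 2 ^ k : ℝ) ≤ 1 + η := by
          have := hN.e1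
          linarith
        have h4 : ∀ S' : Finset (NE E' Wv' k R),
            0 ≤ Phu src' tgt' ncen (nlvi R src' tgt') u0 v u S' := by
          intro S'
          exact Finset.sum_nonneg fun c _ => by positivity
        have h5 : Phu src' tgt' ncen (nlvi R src' tgt') u0 v u (symmDiff S {e}) ≤
            (1 + Dm * u0 ^ (2 * Dm) / 2 ^ k) *
              Phu src' tgt' ncen (nlvi R src' tgt') u0 v u S := by
          exact h1
        exact h5.trans (mul_le_mul_of_nonneg_right h3 (h4 S))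
      · exact lt_of_le_of_lt (Nat.mul_le_mul_right _ hEN) hN.ka
      · exact lt_of_le_of_lt (Nat.mul_le_mul_right _ hWN) hN.l1
      · exact le_of_eq (by rw [pow_succ]; ring)
      · exact le_of_eq (by rw [pow_succ]; ring)
      · show 20 * (kt * Dm ^ i) ≤ Mt * Dm ^ i
        rw [← mul_assoc]
        exact Nat.mul_le_mul_right _ hN.k2
      · calc w * (4 * X ^ i + 18 * (4 * (4 * X ^ (i + 1))))
            = 4 * X ^ i * (w * (1 + 72 * X)) := by rw [pow_succ]; ring
          _ ≤ 4 * X ^ i * (kt * Dm ^ i) := Nat.mul_le_mul_left _ (hN.k1.trans (hle _ _))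
      · rw [pow_succ]
        exact le_of_eq (by ring)
      · refine lt_of_le_of_lt ?_ hN.c1
        have h1 : cnt * (3 * (s + 3 * (j + 1)) ^ 2) ^ (j + 1)
            ≤ cnt * (3 * (s + 3 * J) ^ 2) ^ J := by
          refine Nat.mul_le_mul_left _ ?_
          calc (3 * (s + 3 * (j + 1)) ^ 2) ^ (j + 1) ≤ (3 * (s + 3 * J) ^ 2) ^ (j + 1) :=
                Nat.pow_le_pow_left (Nat.mul_le_mul_left _ (Nat.pow_le_pow_left
                  (by omega) 2)) _
            _ ≤ _ := Nat.pow_le_pow_right (Nat.mul_pos (by norm_num)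
                (Nat.pow_pos (by omega))) hj
        have h2 : ((cnt * (3 * (s + 3 * (j + 1)) ^ 2) ^ (j + 1) : ℕ) : ℝ)
            ≤ ((cnt * (3 * (s + 3 * J) ^ 2) ^ J : ℕ) : ℝ) := by exact_mod_cast h1
        have h3 : (Fintype.card Wv' : ℝ) ≤ (((m + 1) ^ 2 * ((k + 1) * 2 ^ k) ^ J : ℕ) : ℝ) := by
          exact_mod_cast hWN
        exact mul_le_mul_of_nonneg_right (mul_le_mul h2 h3 (Nat.cast_nonneg _)
          (Nat.cast_nonneg _)) (by norm_num)

end Pool.Agent.H88.PX
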