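import Mathlib
import Pool.Agent.H88.PX.Tow

set_option autoImplicit false
set_option linter.unusedSectionVars false

/-!
# The clauses, pseudo-evaluations for one CNF
-/

namespace Pool.Agent.H88.PX

open Finset Filter Topology Pool.Agent.H3.Frg Pool.Agent.H3.Frg2 Pool.Agent.H3.Frg3
  Pool.Agent.H3.Frg4 Pool.Agent.H3.Ac Pool.Agent.H3.Ex

theorem hv_ren {V V' X : Type} (g : V → V') (F : V' → X → Bool) (A : Fm V) :
    hv F (A.ren g) = hv (fun i => F (g i)) A := by
  funext z
  unfold hv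
  rw [eval_ren]

theorem ce_ren {V V' X : Type} {P : PA X} (g : V → V') {F : V' → X → Bool} {k : ℕ} {A : Fm V} :
    ∀ {p : X → Bool}, CE P F k (A.ren g) p → CE P (fun i => F (g i)) k A p := by
  induction A with
  | var i => intro p h; exact h
  | neg A ih =>
    rintro p ⟨h1, a, ha, h2⟩
    exact ⟨h1, a, ih ha, h2⟩
  | imp A B ihA ihB =>
    rintro p ⟨h1, a, b, ha, hb, h2⟩
    exact ⟨h1, a, b, ihA ha, ihB hb, h2⟩

theorem mem_subs_ren {V V' : Type} (g : V → V') (A : Fm V) :
    ∀ B ∈ (A.ren g).subs, ∃ B0 ∈ A.subs, B0.ren g = B := by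
  induction A with
  | var i =>
    intro B hB
    simp only [Fm.ren, Fm.subs, List.mem_singleton] at hB
    exact ⟨Fm.var i, by simp [Fm.subs], hB.symm⟩
  | neg A ih =>
    intro B hB
    simp only [Fm.ren, Fm.subs, List.mem_cons] at hB
    rcases hB with rfl | hB
    · exact ⟨Fm.neg A, by simp [Fm.subs], rfl⟩
    · obtain ⟨B0, h1, h2⟩ := ih B hB
      exact ⟨B0, by simp only [Fm.subs, List.mem_cons]; exact Or.inr h1, h2⟩
  | imp A A' ihA ihA' =>
    intro B hB
    simp only [Fm.ren, Fm.subs, List.mem_cons, List.mem_append] at hB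
    rcases hB with rfl | hB | hB
    · exact ⟨Fm.imp A A', by simp [Fm.subs], rfl⟩
    · obtain ⟨B0, h1, h2⟩ := ihA B hB
      exact ⟨B0, by simp only [Fm.subs, List.mem_cons, List.mem_append]; exact Or.inr (Or.inl h1), h2⟩
    · obtain ⟨B0, h1, h2⟩ := ihA' B hB
      exact ⟨B0, by simp only [Fm.subs, List.mem_cons, List.mem_append]; exact Or.inr (Or.inr h1), h2⟩

/-- a clause which follows from the axiom of the vertex `v` is pseudo-true at the top -/
theorem clause_z {E Wv : Type} [Fintype E] [DecidableEq E] [Fintype Wv] [DecidableEq Wv]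
    {src tgt : E → Wv} (fam : PFam src tgt) {ε : Wv → ℝ} (hε : ∀ v, ε v * ε v = 1)
    (hK : 1 ≤ fam.K) (v : Wv) (A : Fm E) {D : ℕ} (hD : (bd src tgt {v}).card ≤ D)
    (hA : Dg (rl (hv (fun (i : E) (z : E → Bool) => z i) A)) D)
    (hM : 2 * D ≤ fam.M) (h : ∀ z, chi (bd src tgt {v}) z = ε v → A.eval z = true) :
    (fam.P ε hε).Z (fun z => rl (hv (fun i z => z i) A) z - 1) := by
  set P := fam.P ε hε with hP
  have h1 : P.Z (fun z => chi (bd src tgt {v}) z - epsX ε {v}) := fam.bf ε hε {v} (by simpa using hK)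
  have h2 : epsX ε {v} = ε v := by simp [epsX]
  have d1 : P.Dg (fun z => chi (bd src tgt {v}) z - epsX ε {v}) D :=
    (fam.dg _ _ _ _).mpr (Dg_bd_sub src tgt ε {v} D hD)
  have d2 : P.Dg (fun z => (-(ε v) / 2) * (rl (hv (fun (i : E) (z : E → Bool) => z i) A) z - 1)) D := by
    refine P.dg_smul _ (P.dg_sub ((fam.dg _ _ _ _).mpr hA) (P.dg_mono (P.dg_const 1) (Nat.zero_le _)))
  have hPM : P.M = fam.M := fam.hM ε hε
  refine P.z_congr (P.z_mul h1 d1 d2 (by omega)) fun z => ?_
  rw [h2]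
  have h3 : rl (hv (fun (i : E) (z : E → Bool) => z i) A) z
      = if A.eval z = true then (1:ℝ) else 0 := rfl
  have h4 := chi_mul_self (bd src tgt {v}) z
  have h5 := hε v
  by_cases h6 : A.eval z = true
  · rw [h3, if_pos h6]; ring
  · have h7 : chi (bd src tgt {v}) z ≠ ε v := fun h8 => h6 (h z h8)
    have h8 : (chi (bd src tgt {v}) z - ε v) * (chi (bd src tgt {v}) z + ε v) = 0 := by
      linear_combination h4 - h5
    have h9 : chi (bd src tgt {v}) z + ε v = 0 := by
      rcases mul_eq_zero.mp h8 with h10 | h10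
      · exact absurd (sub_eq_zero.mp h10) h7
      · exact h10
    rw [h3, if_neg h6]
    have h10 : chi (bd src tgt {v}) z = -ε v := by linarith
    rw [h10]
    linear_combination -h5

theorem fixedP {J m n k Dm : ℕ} (hm : Even m) (hJD : dgf (J + 1) ≤ Dm) (hn1 : 1000 ≤ n)
    (hnm : n ≤ (m + 1) ^ 2) :
    ∃ (d : ℕ) (C : ℕ → Fm ℕ), (∀ i, IsClause Dm (C i)) ∧
      (∀ x, (Fm.neg (bigAnd d C)).eval x = true) ∧
      n ≤ (Fm.neg (bigAnd d C)).enc.length ∧
      (Fm.neg (bigAnd d C)).enc.length ≤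
        ((m + 1) ^ 2 * ((k + 1) * 2 ^ k) ^ J * (2 ^ Dm * (8 * Dm + 8)) + 4) *
        (2 * Nat.size (Dm * ((m + 1) ^ 2 * ((k + 1) * 2 ^ k) ^ J)) + 2) ∧
      ∀ (t w X kt Mt K b dd ℓ cnt lam κ L1 : ℕ) (u0 u1 η : ℝ),
        Nx J m n k t w X Dm kt (Dm + 1) Mt K b dd ℓ cnt lam κ L1 u0 u1 η →
        ∀ Bs : List (Fm ℕ), (∀ B ∈ Bs, B.len ≤ b) → Bs.length ≤ cnt →
        HasPW {B | B ∈ Bs} (Set.range C) w (kt * Dm ^ J) ((Dm + 1) * Dm ^ J) (Mt * Dm ^ J) := by
  classical
  obtain ⟨E, Wv, iE, iD, iW, iDW, src, tgt, hG, hcW, hcE, hlev⟩ :=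
    towerP (J := J) (n := n) (k := k) (Dm := Dm) hm hJD hn1 hnm J le_rfl
  have hDm : 80 ≤ Dm := (one_le_dgf (J + 1)).trans hJD
  have hkk : 1 ≤ (k + 1) * 2 ^ k := Nat.mul_pos (by omega) (by positivity)
  have hnW : n ≤ Fintype.card Wv := by
    rw [hcW]; exact hnm.trans (Nat.le_mul_of_pos_right _ (Nat.pow_pos hkk))
  have hneW : Nonempty Wv := Fintype.card_pos_iff.mp (by omega)
  obtain ⟨v1⟩ := hneW
  have hne : ∀ v, (bd src tgt {v}).Nonempty := by
    intro v
    rw [Finset.nonempty_iff_ne_empty]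
    intro h0
    have h1 := hG.cheeger {v}
    rw [h0, Finset.card_empty, mul_zero, Finset.card_singleton] at h1
    have : min 1 (Fintype.card Wv - 1) = 1 := min_eq_left (by omega)
    omega
  obtain ⟨v0, -⟩ := hne v1
  have hdeg : ∀ v, (bd src tgt {v}).card ≤ Dm := fun v => (hG.deg v).trans hJD
  -- the clauses
  obtain ⟨P, hP⟩ : ∃ P, P = Idx src tgt v1 := ⟨_, rfl⟩
  have hPle : P.card ≤ Fintype.card Wv * 2 ^ Dm := by rw [hP]; exact card_Idx_le hdeg v1
  have hleP : Fintype.card Wv ≤ P.card := by rw [hP]; exact le_card_Idx hne v1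
  have hP0 : 1 ≤ P.card := by omega
  set φ := P.equivFin with hφ
  set idx : ℕ → (Σ _ : Wv, Finset E) := fun i =>
    ((φ.symm (if h : i < P.card then ⟨i, h⟩ else ⟨0, hP0⟩) : P) : Σ _ : Wv, Finset E) with hidx
  have hidxP : ∀ i, idx i ∈ P := fun i => (φ.symm _).2
  have hidxS : ∀ p ∈ P, ∃ i < P.card, idx i = p := by
    intro p hp
    refine ⟨(φ ⟨p, hp⟩ : ℕ), (φ ⟨p, hp⟩).isLt, ?_⟩
    rw [hidx]
    simp
  set C0 : ℕ → Fm E := fun i => clp src tgt v0 (idx i) with hC0
  have hsp := fun i => clp_spec hdeg hne v0 (idx i)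
  obtain ⟨d, hd⟩ : ∃ d, d = Nat.clog 2 P.card := ⟨_, rfl⟩
  have hd1 : P.card ≤ 2 ^ d := by rw [hd]; exact Nat.le_pow_clog (by norm_num) _
  have hd2 : 2 ^ d ≤ 2 * P.card := by
    rcases Nat.lt_or_ge 1 P.card with h | h
    · have h3 : 2 ^ (Nat.clog 2 P.card - 1) < P.card := by
        have := Nat.pow_pred_clog_lt_self (b := 2) (by norm_num) h
        simpa using this
      have h4 : 0 < Nat.clog 2 P.card := Nat.clog_pos (by norm_num) h
      calc 2 ^ d = 2 * 2 ^ (Nat.clog 2 P.card - 1) := by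
            rw [hd, ← pow_succ']; congr 1; omega
        _ ≤ 2 * P.card := by omega
    · have h3 : P.card = 1 := by omega
      rw [hd, h3]
      simp
  -- variables in ℕ
  set ψ := Fintype.equivFin E with hψ
  set f : E → ℕ := fun v => (ψ v : ℕ) with hf
  have hfB : ∀ v, f v < Fintype.card E := fun v => (ψ v).isLt
  set g : ℕ → E := fun i => if h : i < Fintype.card E then ψ.symm ⟨i, h⟩ else v0 with hg
  have hgf : ∀ v, g (f v) = v := by
    intro v
    have h1 : f v < Fintype.card E := (ψ v).isLt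
    rw [hg]
    simp only [h1, dif_pos]
    exact ψ.symm_apply_apply v
  have hK : ∀ x, (bigAnd d C0).eval x = false := by
    intro x
    by_contra h1
    rw [Bool.not_eq_false, eval_bigAnd] at h1
    obtain ⟨p, hp, h2⟩ := exists_Idx (src := src) (tgt := tgt) v1 x
    rw [← hP] at hp
    obtain ⟨i, hi, h3⟩ := hidxS p hp
    have h4 := h1 i (lt_of_lt_of_le hi hd1)
    rw [hC0] at h4
    simp only at h4
    rw [(hsp i).2.2.2 x] at h4
    obtain ⟨w, hw, h5⟩ := h4
    rw [h3] at hw h5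
    exact h5 (h2 w hw)
  have hren : ∀ d', (Fm.neg (bigAnd d' C0)).ren f
      = Fm.neg (bigAnd d' fun i => (C0 i).ren f) := fun d' => by
    show Fm.neg ((bigAnd d' C0).ren f) = _
    rw [ren_bigAnd]
  have hlenC : ∀ i, (C0 i).len ≤ 4 * Dm := fun i => (hsp i).2.1
  have hlenK := len_bigAnd (4 * Dm) d C0 hlenC
  have h2d : 2 ^ d ≤ 2 * (Fintype.card Wv * 2 ^ Dm) := hd2.trans (Nat.mul_le_mul_left _ hPle)
  have hKd : 2 ^ d * (4 * Dm + 3) ≤ Fintype.card Wv * (2 ^ Dm * (8 * Dm + 8)) := by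
    calc 2 ^ d * (4 * Dm + 3) ≤ 2 * (Fintype.card Wv * 2 ^ Dm) * (4 * Dm + 3) :=
          Nat.mul_le_mul_right _ h2d
      _ = Fintype.card Wv * (2 ^ Dm * (8 * Dm + 6)) := by ring
      _ ≤ _ := Nat.mul_le_mul_left _ (Nat.mul_le_mul_left _ (by omega))
  refine ⟨d, fun i => (C0 i).ren f, fun i => isClause_ren f (hsp i).1, fun x => ?_, ?_, ?_, ?_⟩
  · rw [← hren, eval_ren]
    show (!(bigAnd d C0).eval _) = true
    rw [hK]; rfl
  · rw [← hren]
    refine le_trans ?_ (len_le_enc _)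
    rw [len_ren]
    show n ≤ (bigAnd d C0).len + 1
    have := two_pow_le_len_bigAnd d C0
    omega
  · rw [← hren]
    refine (enc_le f _ hfB _).trans ?_
    rw [← hcW]
    refine Nat.mul_le_mul ?_ ?_
    · show (bigAnd d C0).len + 1 ≤ _
      omega
    · have h1 : Nat.size (Fintype.card E) ≤ Nat.size (Dm * Fintype.card Wv) := by
        refine Nat.size_le_size (hcE.trans ?_)
        exact Nat.mul_le_mul_right _ hJD
      omega
  · intro t w X kt Mt K b dd ℓ cnt lam κ L1 u0 u1 η hN Bs hBs hBl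
    by_contra hno
    obtain ⟨fam, hfM, hfK, hlv⟩ :=
      hlev t w X kt (Dm + 1) Mt K b dd ℓ cnt lam κ L1 u0 u1 η hN
    rw [Nat.sub_self, pow_zero, pow_zero, mul_one, mul_one, mul_one] at hlv
    rw [Nat.sub_self, pow_zero, mul_one] at hfM
    have hw1 := hN.w1
    have hwkt : w ≤ kt := by
      refine le_trans ?_ hN.k1
      exact Nat.le_mul_of_pos_right _ (by omega)
    have hK1 : 1 ≤ fam.K := by
      rw [hfK]
      refine le_trans ?_ hN.kk
      exact Nat.mul_pos (by omega) (Nat.mul_pos (by omega) (Nat.mul_pos (by omega)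
        (Nat.mul_pos (by omega) (by omega))))
    have hDM : 2 * Dm ≤ fam.M := by
      rw [hfM]
      refine le_trans ?_ hN.mm
      have e1 : Dm * 1 ≤ Dm * (w * (1 + 72 * X)) :=
        Nat.mul_le_mul_left _ (Nat.mul_pos (by omega) (by omega))
      omega
    have hvc : ∀ i, (C0 i).vars.card ≤ Dm := fun i =>
      (Finset.card_le_card (hsp i).2.2.1).trans (hdeg _)
    refine hlv E v0 (fun i z => z i) (fun v => sg (sgn3 v1 v)) (fun v => sg_mul_self _)
      (prod_sgn3 v1) (Bs.map fun B => B.ren g) (fun B hB => ?_) (by rw [List.length_map]; exact hBl)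
      (fun B _ hB => ⟨hv (fun (i : E) (z : E → Bool) => z i) B, TD_mono (by omega) (td_hv B), ?_⟩)
      ((List.range P.card).map C0) (fun A hA => ?_) ?_
    · obtain ⟨B', hB', rfl⟩ := List.mem_map.mp hB
      rw [len_ren]
      exact hBs B' hB'
    · refine ce_exact _ _ _ _ fun C hC => ?_
      rw [fam.dg]
      intro T hT
      by_contra hne
      have h1 := W_ind_supp C T hne
      have h2 := Finset.card_le_card (h1.trans (vars_subs B C hC))
      have h3 := card_vars_le B
      omega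
    · obtain ⟨i, -, rfl⟩ := List.mem_map.mp hA
      have hdgA : ∀ B ∈ (C0 i).subs,
          Dg (rl (hv (fun (i : E) (z : E → Bool) => z i) B)) Dm := by
        intro B hB T hT
        by_contra h1
        have h2 := W_ind_supp B T h1
        have h3 := Finset.card_le_card (h2.trans (vars_subs (C0 i) B hB))
        have h4 := hvc i
        omega
      refine ⟨fun B hB => Dg_mono (hdgA B hB) (Nat.le_succ _), ?_⟩
      refine clause_z fam (fun v => sg_mul_self _) hK1 (idx i).1 (C0 i) (hdeg _)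
        (hdgA _ (self_subs _)) hDM fun z hz => ?_
      rw [hC0]
      simp only
      rw [(hsp i).2.2.2 z]
      by_contra h8
      push Not at h8
      rw [chi_congr' h8] at hz
      have h1 := hidxP i
      rw [hP] at h1
      unfold Idx at h1
      rw [Finset.mem_sigma, Finset.mem_filter] at h1
      exact h1.2.2 hz
    · rintro ⟨X', PP, F, h1, h2, h3⟩
      refine hno ⟨X', PP, fun i => F (g i), h1, fun B hB => ?_, ?_⟩
      · obtain ⟨q, hq1, hq2⟩ := h2 (B.ren g) (List.mem_map.mpr ⟨B, hB, rfl⟩)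
        exact ⟨q, hq1, ce_ren g hq2⟩
      · rintro A ⟨i, rfl⟩
        -- the index below `P.card`
        obtain ⟨i', hi', hii⟩ : ∃ i' < P.card, idx i' = idx i := hidxS _ (hidxP i)
        have hCC : C0 i = C0 i' := by rw [hC0]; simp only [hii]
        obtain ⟨h4, h5⟩ := h3 (C0 i) (by
          show C0 i ∈ (List.range P.card).map C0
          rw [hCC]
          exact List.mem_map.mpr ⟨i', List.mem_range.mpr hi', rfl⟩)
        have hgf' : ∀ B : Fm E, hv (fun i => F (g i)) (B.ren f) = hv F B := by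
          intro B
          rw [hv_ren]
          simp only [hgf]
        refine ⟨fun B hB => ?_, ?_⟩
        · obtain ⟨B0, hB0, rfl⟩ := mem_subs_ren f _ B hB
          rw [hgf']
          exact h4 B0 hB0
        · rw [hgf']
          exact h5

end Pool.Agent.H88.PX
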